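import Pool.Agent.N119.PS.Stm

/-!
# Project PSC (helper119): combination of counting currents with the same cylinder masses

By helper286.
-/

set_option autoImplicit false

namespace Pool.Agent.N286.PSC

open Pool.Agent.H472R3 Pool.Agent.H67R3.FSR Pool.Agent.H67R4.SR MeasureTheory Topology Filter
open Pool.Agent.N119.PS
open scoped ENNReal NNReal

variable {N : ℕ}

theorem norm_ini (g : FreeGroup (Fin N)) : (ini g).norm = g.norm - 1 := by
  have h : FreeGroup.IsReduced g.toWord.dropLast :=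
    FreeGroup.isReduced_toWord.infix (List.dropLast_prefix _).isInfix
  unfold ini FreeGroup.norm
  rw [toWord_mk_red h, List.length_dropLast]

theorem norm_tl (g : FreeGroup (Fin N)) : (tl g).norm = g.norm - 1 := by
  have h : FreeGroup.IsReduced g.toWord.tail :=
    FreeGroup.isReduced_toWord.infix (List.tail_suffix _).isInfix
  unfold tl FreeGroup.norm
  rw [toWord_mk_red h, List.length_tail]

theorem part_apply (c : ℕ → ℝ≥0) (η : ℕ → Current N) (S : Set (Bd2 N)) (k : ℕ) :
    (part c η k).meas S = ∑ i ∈ Finset.range k, (c i : ℝ≥0∞) * (η i).meas S := by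
  induction k with
  | zero => simp [part, Current.zero_meas]
  | succ k ih =>
    rw [part, Current.add_meas, Measure.add_apply, ih, Finset.sum_range_succ, Current.smul_meas,
      Measure.smul_apply, ENNReal.smul_def, smul_eq_mul]

/-- a constant periodic word -/
def P0 (hN : 2 ≤ N) : PerWord N where
  c := fun _ => (⟨0, by omega⟩, true)
  m := 1
  pos := one_pos
  per := fun _ => rfl
  red := fun _ h => by
    have := congrArg Prod.snd h
    simp [inv'] at this
  prim := fun i hi j hj _ => by omega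

theorem cyl_fin (μ : Current N) (e : FreeGroup (Fin N)) : μ.meas (Cyl e) ≠ ∞ := by
  have h1 : Cyl e ⊆ U 1 := fun q hq => hq.1
  exact ne_of_lt (lt_of_le_of_lt (measure_mono h1) (μ.finite _ isCompact_U1))

open Classical in
theorem sub_sum (n : ℕ) (F : FreeGroup (Fin N) → FreeGroup (Fin N)) (v : FreeGroup (Fin N))
    (μ : Current N) :
    (((∑ e : {e // e ∈ sph N n} with F e.1 = v, (μ.meas (Cyl e.1)).toNNReal) : ℝ≥0) : ℝ≥0∞) =
      ∑ e ∈ (sph N n).filter (fun e => F e = v), μ.meas (Cyl e) := by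
  rw [Finset.sum_filter, Finset.sum_filter]
  have h1 := Finset.sum_coe_sort (sph N n)
    (fun e => if F e = v then (μ.meas (Cyl e)).toNNReal else 0)
  rw [h1]
  push_cast
  refine Finset.sum_congr rfl fun e _ => ?_
  split_ifs
  · exact ENNReal.coe_toNNReal (cyl_fin μ e)
  · rfl

/-- the numbers of occurrences are 0 or 1 -/
theorem card_occ {n m : ℕ} {z : ℕ → FreeGroup (Fin N)} (hz : ∀ j < m, ∀ l < m, z j = z l → j = l)
    (p : PerWord N) (hm : p.m = m) (hp : ∀ j, p.el j n = z j) (e : FreeGroup (Fin N))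
    [Decidable (∃ j < m, z j = e)] :
    ((Finset.range p.m).filter fun i => p.el i n = e).card = if ∃ j < m, z j = e then 1 else 0 := by
  subst hm
  split_ifs with h
  · obtain ⟨j, hj, hje⟩ := h
    rw [Finset.card_eq_one]
    refine ⟨j, ?_⟩
    ext l
    simp only [Finset.mem_filter, Finset.mem_range, Finset.mem_singleton]
    constructor
    · rintro ⟨hl, hle⟩
      rw [hp] at hle
      exact hz l hl j hj (hle.trans hje.symm)
    · rintro rfl
      exact ⟨hj, by rw [hp, hje]⟩
  · rw [Finset.card_eq_zero, Finset.filter_eq_empty_iff]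
    intro l hl hle
    exact h ⟨l, Finset.mem_range.1 hl, by rw [← hp, hle]⟩

/-- **DEC** -/
theorem t (h1 : S_FLOW) (h2 : S_KIR) (h3 : S_CYC) (h4 : S_PER) (h5 : S_ETA) : S_DEC := by
  classical
  intro N n hN hn μ
  obtain ⟨n', rfl⟩ : ∃ n', n = n' + 1 := ⟨n - 1, by omega⟩
  obtain ⟨k1, k2, k3⟩ := h2 N μ n'
  have hcirc : ∀ v : FreeGroup (Fin N),
      (∑ e : {e // e ∈ sph N (n' + 1)} with tl e.1 = v, (μ.meas (Cyl e.1)).toNNReal) =
        ∑ e : {e // e ∈ sph N (n' + 1)} with ini e.1 = v, (μ.meas (Cyl e.1)).toNNReal := by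
    intro v
    rw [← ENNReal.coe_inj, sub_sum (n' + 1) tl v μ, sub_sum (n' + 1) ini v μ]
    by_cases hv : v.norm = n'
    · have e1 := k1 v hv
      have e2 := k2 v hv
      rw [← e1] at e2
      convert e2
    · rw [Finset.filter_eq_empty_iff.2, Finset.filter_eq_empty_iff.2]
      · intro e he h
        apply hv
        rw [← h, norm_ini, mem_sph.1 he, Nat.add_sub_cancel]
      · intro e he h
        apply hv
        rw [← h, norm_tl, mem_sph.1 he, Nat.add_sub_cancel]
  obtain ⟨k, a, m, z, m1, m2, m3, m4, m5⟩ := h1 (FreeGroup (Fin N)) {e // e ∈ sph N (n' + 1)}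
    (fun e => ini e.1) (fun e => tl e.1) (fun e => (μ.meas (Cyl e.1)).toNNReal) (by
      intro v
      convert hcirc v)
  have hz : ∀ i, ∀ j < m i, ∀ l < m i, (z i j).1 = (z i l).1 → j = l := fun i j hj l hl h =>
    m3 i j hj l hl (Subtype.ext h)
  have hP : ∀ i : Fin k, ∃ p : PerWord N, p.m = m i ∧ ∀ j, p.el j (n' + 1) = (z i j).1 := fun i =>
    h3 N (n' + 1) hn (m i) (fun j => (z i j).1) (m1 i) (fun j => mem_sph.1 (z i j).2)
      (fun j => by rw [m2 i j]) (hz i) (m4 i)
  choose p p1 p2 using hP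
  set p' : ℕ → PerWord N := fun i => if h : i < k then p ⟨i, h⟩ else P0 hN with hp'
  set a' : ℕ → ℝ≥0 := fun i => if h : i < k then a ⟨i, h⟩ / 2 else 0 with ha'
  have hpi : ∀ i : Fin k, p' i = p i := fun i => by
    rw [hp']
    simp only [i.2, dif_pos]
  have hai : ∀ i : Fin k, a' i = a i / 2 := fun i => by
    rw [ha']
    simp only [i.2, dif_pos]
  refine ⟨k, a', p', fun i => (h4 N (p' i)).2.2.2.1, fun e he => ?_⟩
  have he' : e⁻¹.norm = n' + 1 := by rw [FreeGroup.norm_inv_eq, he]
  -- the masses of the cylinders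
  have f1 : ∀ e : FreeGroup (Fin N), e.norm = n' + 1 → (μ.meas (Cyl e)).toNNReal =
      ∑ i : Fin k, a i * (((Finset.range (p i).m).filter fun j =>
        (p i).el j (n' + 1) = e).card : ℝ≥0) := by
    intro e he
    have h6 := m5 ⟨e, mem_sph.2 he⟩
    refine h6.trans (Finset.sum_congr rfl fun i _ => ?_)
    rw [card_occ (hz i) (p i) (p1 i) (p2 i) e]
    have h7 : (∃ j < m i, z i j = ⟨e, mem_sph.2 he⟩) ↔ ∃ j < m i, (z i j).1 = e := by
      simp only [Subtype.ext_iff]
    by_cases h8 : ∃ j < m i, (z i j).1 = e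
    · rw [if_pos h8, if_pos (h7.2 h8)]
      simp
    · rw [if_neg h8, if_neg (fun h => h8 (h7.1 h))]
      simp
  rw [part_apply, Finset.sum_range]
  have f2 : ∀ i : Fin k, (a' i : ℝ≥0∞) * (eta (p' i).g (h4 N (p' i)).2.2.2.1).meas (Cyl e) =
      ((a i / 2 * ((((Finset.range (p i).m).filter fun j => (p i).el j (n' + 1) = e).card : ℝ≥0) +
        (((Finset.range (p i).m).filter fun j => (p i).el j (n' + 1) = e⁻¹).card : ℝ≥0)) : ℝ≥0) :
        ℝ≥0∞) := by
    intro i
    rw [h5, hai, hpi, he]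
    push_cast
    rfl
  rw [Finset.sum_congr rfl fun i _ => f2 i, ← ENNReal.ofNNReal_finsetSum]
  have f3 : (∑ i : Fin k, a i / 2 *
      ((((Finset.range (p i).m).filter fun j => (p i).el j (n' + 1) = e).card : ℝ≥0) +
        (((Finset.range (p i).m).filter fun j => (p i).el j (n' + 1) = e⁻¹).card : ℝ≥0))) =
      ((μ.meas (Cyl e)).toNNReal + (μ.meas (Cyl e⁻¹)).toNNReal) / 2 := by
    rw [f1 e he, f1 e⁻¹ he', ← Finset.sum_add_distrib, Finset.sum_div]
    refine Finset.sum_congr rfl fun i _ => ?_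
    rw [← mul_add]
    ring
  rw [f3, k3 e]
  have f4 : ((μ.meas (Cyl e)).toNNReal + (μ.meas (Cyl e)).toNNReal) / 2 =
      (μ.meas (Cyl e)).toNNReal := by
    rw [← two_mul]
    exact mul_div_cancel_left₀ _ two_ne_zero
  rw [f4, ENNReal.coe_toNNReal (cyl_fin μ e)]

end Pool.Agent.N286.PSC
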